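import Pool.Agent.Y823.LW.Fam

/-!
# The Lang-Waldschmidt inequality fails without the factor `B`, for every `m ≥ 8`

The frozen statement `S16898` (proved in the starting files) disproves the inequality
`|Λ - 1| ≥ C ^ m B / (∏ |b_i| ∏ |a_i|) ^ (1 + ε)` for `ε = 1 / 28`, with one family of `7` factors; it
uses the factor `B`.  Here the inequality is disproved without the factor `B`: for every `m ≥ 8` there
are infinitely many `Λ` with `0 < |Λ - 1| ≤ K / (∏ |b_i| ∏ |a_i|) ^ (16 / 15)`.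
-/

set_option autoImplicit false

open Finset Filter

namespace Pool.Agent.Results.MP_4eb8d9_nt.NoFactorB

/-- `Λ = a_1 ^ b_1 ⋯ a_m ^ b_m` -/
noncomputable def lam {m : ℕ} (a b : Fin m → ℤ) : ℝ := ∏ i, ((a i : ℝ) ^ (b i))

/-- the product `|b_1| ⋯ |b_m| · |a_1| ⋯ |a_m|` -/
noncomputable def size {m : ℕ} (a b : Fin m → ℤ) : ℝ :=
  (∏ i, |((b i : ℤ) : ℝ)|) * (∏ i, |((a i : ℤ) : ℝ)|)

/-- `B = max |b_i|` -/
noncomputable def maxB {m : ℕ} (b : Fin m → ℤ) : ℝ :=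
  ((Finset.univ.sup fun i => (b i).natAbs : ℕ) : ℝ)

/-- For every `m ≥ 8`:
(1) there are products `Λ ≠ 1` of `m` powers, with positive `a_i`, nonzero `b_i` and arbitrarily large
`X = ∏ |b_i| ∏ |a_i|`, such that `|Λ - 1| ≤ 10 ^ 120 / X ^ (16 / 15)` and `B ≥ X ^ (1 / 15) / 10 ^ 5`;
(2) for all `ε < 1 / 15` and `C > 0` there are such products with
`|Λ - 1| < C ^ m / X ^ (1 + ε)` (no factor `B`);
(3) for all `ε < 2 / 15` and `C > 0` there are such products with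
`|Λ - 1| < C ^ m B / X ^ (1 + ε)`. -/
theorem result (m : ℕ) (hm : 8 ≤ m) :
    (∀ H : ℝ, ∃ a b : Fin m → ℤ, (∀ i, 0 < a i) ∧ (∀ i, b i ≠ 0) ∧ H < size a b ∧ lam a b ≠ 1 ∧
      |lam a b - 1| ≤ 10 ^ 120 / size a b ^ (16 / 15 : ℝ) ∧
      size a b ^ (1 / 15 : ℝ) ≤ 10 ^ 5 * maxB b) ∧
    (∀ ε C H : ℝ, ε < 1 / 15 → 0 < C → ∃ a b : Fin m → ℤ, (∀ i, 0 < a i) ∧ (∀ i, b i ≠ 0) ∧
      H < size a b ∧ lam a b ≠ 1 ∧ |lam a b - 1| < C ^ m / size a b ^ (1 + ε)) ∧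
    (∀ ε C H : ℝ, ε < 2 / 15 → 0 < C → ∃ a b : Fin m → ℤ, (∀ i, 0 < a i) ∧ (∀ i, b i ≠ 0) ∧
      H < size a b ∧ lam a b ≠ 1 ∧ |lam a b - 1| < C ^ m * maxB b / size a b ^ (1 + ε)) := by
  have main : ∀ H : ℝ, ∃ a b : Fin m → ℤ, (∀ i, 0 < a i) ∧ (∀ i, b i ≠ 0) ∧ H < size a b ∧
      lam a b ≠ 1 ∧ |lam a b - 1| ≤ 10 ^ 120 / size a b ^ (16 / 15 : ℝ) ∧
      size a b ^ (1 / 15 : ℝ) ≤ 10 ^ 5 * maxB b := by
    intro H
    obtain ⟨k, rfl⟩ : ∃ k, m = 8 + k := ⟨m - 8, by omega⟩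
    obtain ⟨N, hN⟩ := exists_nat_gt H
    obtain ⟨t, ht⟩ : ∃ t : ℤ, t = max (N : ℤ) (10 ^ 7) := ⟨_, rfl⟩
    have ht7 : 10 ^ 7 ≤ t := by rw [ht]; exact le_max_right _ _
    have htN : (N : ℤ) ≤ t := by rw [ht]; exact le_max_left _ _
    have htN' : (N : ℝ) ≤ (t : ℝ) := by exact_mod_cast htN
    obtain ⟨h1, h2, h3, h4, h5, h6⟩ := Pool.Agent.Y823.LW.core k t ht7
    exact ⟨Pool.Agent.Y823.LW.aP k t, Pool.Agent.Y823.LW.bP k t, h1, h2,
      lt_of_lt_of_le (hN.trans_le htN') h4, h3, h5, h6⟩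
  refine ⟨main, fun ε C H hε hC => ?_, fun ε C H hε hC => ?_⟩
  · have hlim := (tendsto_rpow_atTop (show (0 : ℝ) < 1 / 15 - ε by linarith)).eventually_gt_atTop
      (10 ^ 120 / C ^ m)
    obtain ⟨T, hT⟩ := Filter.eventually_atTop.1 hlim
    obtain ⟨a, b, h1, h2, h3, h4, h5, -⟩ := main (max (max H T) 1)
    have hX1 : 1 < size a b := lt_of_le_of_lt (le_max_right _ _) h3
    have hXH : H < size a b := lt_of_le_of_lt ((le_max_left _ _).trans (le_max_left _ _)) h3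
    have hXT : T < size a b := lt_of_le_of_lt ((le_max_right _ _).trans (le_max_left _ _)) h3
    have hX0 : 0 < size a b := one_pos.trans hX1
    refine ⟨a, b, h1, h2, hXH, h4, lt_of_le_of_lt h5 ?_⟩
    have h6 := hT _ hXT.le
    have hCm : 0 < C ^ m := by positivity
    rw [div_lt_iff₀ hCm] at h6
    have e1 : size a b ^ (16 / 15 : ℝ) = size a b ^ (1 + ε) * size a b ^ (1 / 15 - ε) := by
      rw [← Real.rpow_add hX0]
      congr 1
      ring
    have p1 : 0 < size a b ^ (1 + ε) := Real.rpow_pos_of_pos hX0 _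
    have p2 : 0 < size a b ^ (16 / 15 : ℝ) := Real.rpow_pos_of_pos hX0 _
    rw [div_lt_div_iff₀ p2 p1, e1]
    nlinarith
  · have hlim := (tendsto_rpow_atTop (show (0 : ℝ) < 2 / 15 - ε by linarith)).eventually_gt_atTop
      (10 ^ 125 / C ^ m)
    obtain ⟨T, hT⟩ := Filter.eventually_atTop.1 hlim
    obtain ⟨a, b, h1, h2, h3, h4, h5, h7⟩ := main (max (max H T) 1)
    have hX1 : 1 < size a b := lt_of_le_of_lt (le_max_right _ _) h3
    have hXH : H < size a b := lt_of_le_of_lt ((le_max_left _ _).trans (le_max_left _ _)) h3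
    have hXT : T < size a b := lt_of_le_of_lt ((le_max_right _ _).trans (le_max_left _ _)) h3
    have hX0 : 0 < size a b := one_pos.trans hX1
    refine ⟨a, b, h1, h2, hXH, h4, lt_of_le_of_lt h5 ?_⟩
    have h6 := hT _ hXT.le
    have hCm : 0 < C ^ m := by positivity
    rw [div_lt_iff₀ hCm] at h6
    have e1 : size a b ^ (16 / 15 : ℝ) = size a b ^ (1 + ε) * size a b ^ (1 / 15 - ε) := by
      rw [← Real.rpow_add hX0]
      congr 1
      ring
    have e2 : size a b ^ (2 / 15 - ε) = size a b ^ (1 / 15 - ε) * size a b ^ (1 / 15 : ℝ) := by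
      rw [← Real.rpow_add hX0]
      congr 1
      ring
    have p1 : 0 < size a b ^ (1 + ε) := Real.rpow_pos_of_pos hX0 _
    have p2 : 0 < size a b ^ (16 / 15 : ℝ) := Real.rpow_pos_of_pos hX0 _
    have p3 : 0 < size a b ^ (1 / 15 - ε) := Real.rpow_pos_of_pos hX0 _
    rw [div_lt_div_iff₀ p2 p1, e1]
    have h8 : (10 : ℝ) ^ 125 < size a b ^ (1 / 15 - ε) * (10 ^ 5 * maxB b) * C ^ m := by
      calc (10 : ℝ) ^ 125 < size a b ^ (2 / 15 - ε) * C ^ m := h6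
        _ = size a b ^ (1 / 15 - ε) * size a b ^ (1 / 15 : ℝ) * C ^ m := by rw [e2]
        _ ≤ size a b ^ (1 / 15 - ε) * (10 ^ 5 * maxB b) * C ^ m := by gcongr
    have h9 : (10 : ℝ) ^ 120 < C ^ m * maxB b * size a b ^ (1 / 15 - ε) := by
      have : (10 : ℝ) ^ 5 * 10 ^ 120 < 10 ^ 5 * (C ^ m * maxB b * size a b ^ (1 / 15 - ε)) := by
        calc (10 : ℝ) ^ 5 * 10 ^ 120 = 10 ^ 125 := by norm_num
          _ < size a b ^ (1 / 15 - ε) * (10 ^ 5 * maxB b) * C ^ m := h8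
          _ = 10 ^ 5 * (C ^ m * maxB b * size a b ^ (1 / 15 - ε)) := by ring
      exact lt_of_mul_lt_mul_left this (by positivity)
    calc (10 : ℝ) ^ 120 * size a b ^ (1 + ε)
        < (C ^ m * maxB b * size a b ^ (1 / 15 - ε)) * size a b ^ (1 + ε) := by gcongr
      _ = C ^ m * maxB b * (size a b ^ (1 + ε) * size a b ^ (1 / 15 - ε)) := by ring

end Pool.Agent.Results.MP_4eb8d9_nt.NoFactorB
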